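import Mathlib
import Pool.Agent.W658.TIDefs
import Pool.Agent.Helper83K9.TI.NotTI

/-!
# MP_b9f29c_an: a stably finite nuclear C*-algebra that is not locally of type I

The answer to Q1 is no.  Let `A` be the algebra of the continuous functions `f` on `[0, 1]` with
values in the Cuntz algebra `𝒪₂` and with `f 0` scalar (the unitised cone over `𝒪₂`).  It is unital,
separable and nuclear, and it is stably finite, because an isometry over `A` is a path of
isometries over `𝒪₂` that starts at a scalar isometry, which is unitary.  But no C*-subalgebra `B`
of type I comes within `1 / 100` of the two functions `t ↦ t s₁`, `t ↦ t s₂`: the closure `D` of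
the image of `B` under the evaluation at `1` would be unital and would contain elements near to
`s₁`, `s₂`; an irreducible representation of `D` whose kernel is a maximal ideal would have a range
which contains a compact operator, hence consists of compact operators, hence acts on a finite
dimensional space, where the two elements cannot exist.

The definitions (`IsNuclear`, `IsStablyFinite`, `IsTypeI`, `LocallyTypeI`) are in
`Pool.Agent.W658.TIDefs`.
-/

set_option autoImplicit false

namespace Pool.Agent.Results.MP_b9f29c_an.ConeNotLocallyTypeI

open Pool.Agent.W658.TypeI

/-- There is a unital, separable, nuclear, stably finite C*-algebra which is not locally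
approximable by type I C*-algebras. -/
theorem result : ∃ (A : Type) (_ : CStarAlgebra A) (_ : PartialOrder A) (_ : StarOrderedRing A),
    TopologicalSpace.SeparableSpace A ∧ IsNuclear A ∧ IsStablyFinite A ∧ ¬ LocallyTypeI A :=
  ⟨Pool.Agent.W658.Cone.CA, inferInstance, inferInstance, inferInstance,
    Pool.Agent.W658.Cone.separable_CA, Pool.Agent.W658.Cone.nuclear_CA,
    Pool.Agent.Helper83K9.TI.stablyFinite_CA, Pool.Agent.Helper83K9.TI.not_locallyTypeI_CA⟩

end Pool.Agent.Results.MP_b9f29c_an.ConeNotLocallyTypeI
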